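import Pool.Agent.Lib.MP_5fcc10_co_lin.MidDefs
import Pool.Agent.Lib.MP_5fcc10_co_lin.Deg
import Pool.Agent.Lib.MP_5fcc10_co.OddA

set_option linter.unusedSectionVars false

/-! Exact regular subgraphs of the middle levels (Ore–Ryser via Hall). -/

namespace Pool.Agent.SK.Lin.H77

open Finset
open scoped symmDiff

/-- A bipartite (multi)graph satisfying the Ore–Ryser condition has a `D`-regular spanning
subgraph. -/
theorem ore {ε α β : Type*} [DecidableEq ε] [DecidableEq α] [DecidableEq β] (E : Finset ε) (s : ε → α) (t : ε → β) (X : Finset α) (Y : Finset β)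
    (hs : ∀ x ∈ E, s x ∈ X) (ht : ∀ x ∈ E, t x ∈ Y) (hXY : X.card = Y.card) (D : ℕ)
    (h : ∀ A ⊆ X, ∀ B ⊆ Y,
      D * A.card ≤ (E.filter (fun x => s x ∈ A ∧ t x ∉ B)).card + D * B.card) :
    ∃ F ⊆ E, (∀ a ∈ X, (F.filter (fun x => s x = a)).card = D) ∧
      (∀ b ∈ Y, (F.filter (fun x => t x = b)).card = D) := by
  classical
  set deg : β → ℕ := fun b => (E.filter (fun x => t x = b)).card with hdegdef
  have hdeg : ∀ b ∈ Y, D ≤ deg b := by
    intro b hb
    have h1 := h X (Subset.refl _) (Y.erase b) (erase_subset _ _)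
    have h2 : (E.filter (fun x => s x ∈ X ∧ t x ∉ Y.erase b)).card ≤ deg b := by
      apply card_le_card
      intro x hx
      rw [mem_filter] at hx ⊢
      refine ⟨hx.1, ?_⟩
      by_contra hne
      exact hx.2.2 (mem_erase.2 ⟨hne, ht x hx.1⟩)
    rw [card_erase_of_mem hb, hXY] at h1
    have h3 : 1 ≤ Y.card := card_pos.2 ⟨b, hb⟩
    have h4 : D * (Y.card - 1) + D = D * Y.card := by
      rw [← Nat.mul_succ]
      congr 1
      omega
    omega
  -- Hall's theorem
  let T : ((X × Fin D) ⊕ (Σ b : Y, Fin (deg b - D))) → Finset ε := fun x => match x with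
    | Sum.inl a => E.filter (fun x => s x = a.1)
    | Sum.inr b => E.filter (fun x => t x = b.1)
  have hall : ∀ S : Finset ((X × Fin D) ⊕ (Σ b : Y, Fin (deg b - D))),
      S.card ≤ (S.biUnion T).card := by
    intro S
    let A : Finset X := univ.filter (fun a => ∃ j, Sum.inl (a, j) ∈ S)
    let B : Finset Y := univ.filter (fun b => ∃ i, Sum.inr ⟨b, i⟩ ∈ S)
    let A' : Finset α := A.map ⟨Subtype.val, Subtype.val_injective⟩
    let B' : Finset β := B.map ⟨Subtype.val, Subtype.val_injective⟩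
    have hA' : A' ⊆ X := by
      intro a ha
      rw [mem_map] at ha
      obtain ⟨a', _, rfl⟩ := ha
      exact a'.2
    have hB' : B' ⊆ Y := by
      intro a ha
      rw [mem_map] at ha
      obtain ⟨a', _, rfl⟩ := ha
      exact a'.2
    have c1 : S.card ≤ A.card * D + ∑ b ∈ B, (deg b - D) := by
      have hsub : S ⊆ (A ×ˢ (univ : Finset (Fin D))).disjSum
          (B.sigma (fun _ => univ)) := by
        rintro (⟨a, j⟩ | ⟨b, i⟩) hx
        · rw [inl_mem_disjSum, mem_product]
          exact ⟨mem_filter.2 ⟨mem_univ _, j, hx⟩, mem_univ _⟩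
        · rw [inr_mem_disjSum, mem_sigma]
          exact ⟨mem_filter.2 ⟨mem_univ _, i, hx⟩, mem_univ _⟩
      refine (card_le_card hsub).trans ?_
      rw [card_disjSum, card_product, card_sigma]
      simp
    have c2 : (E.filter (fun x => s x ∈ A' ∧ t x ∉ B')).card + ∑ b ∈ B, deg b
        ≤ (S.biUnion T).card := by
      have e1 : ∑ b ∈ B, deg b = (E.filter (fun x => t x ∈ B')).card := by
        have : (E.filter (fun x => t x ∈ B')) = B.biUnion (fun b => E.filter (fun x => t x = b)) := by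
          ext x
          simp only [mem_filter, mem_biUnion, B', mem_map, Function.Embedding.coeFn_mk]
          constructor
          · rintro ⟨h1, b, hb, h2⟩
            exact ⟨b, hb, h1, h2.symm⟩
          · rintro ⟨b, hb, h1, h2⟩
            exact ⟨h1, b, hb, h2.symm⟩
        rw [this, card_biUnion]
        intro b _ b' _ hbb
        rw [Function.onFun, disjoint_left]
        intro x hx hx'
        rw [mem_filter] at hx hx'
        exact hbb (Subtype.ext (hx.2.symm.trans hx'.2))
      rw [e1, ← card_union_of_disjoint]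
      · apply card_le_card
        intro x hx
        rw [mem_union, mem_filter, mem_filter] at hx
        rw [mem_biUnion]
        rcases hx with ⟨hxE, hxA, -⟩ | ⟨hxE, hxB⟩
        · simp only [A', mem_map, Function.Embedding.coeFn_mk] at hxA
          obtain ⟨a, ha, hax⟩ := hxA
          obtain ⟨j, hj⟩ := (mem_filter.1 ha).2
          exact ⟨_, hj, mem_filter.2 ⟨hxE, hax.symm⟩⟩
        · simp only [B', mem_map, Function.Embedding.coeFn_mk] at hxB
          obtain ⟨b, hb, hbx⟩ := hxB
          obtain ⟨j, hj⟩ := (mem_filter.1 hb).2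
          exact ⟨_, hj, mem_filter.2 ⟨hxE, hbx.symm⟩⟩
      · rw [disjoint_left]
        intro x hx hx'
        rw [mem_filter] at hx hx'
        exact hx.2.2 hx'.2
    have c3 := h A' hA' B' hB'
    have c4 : A'.card = A.card := card_map _
    have c5 : B'.card = B.card := card_map _
    have c6 : ∑ b ∈ B, (deg b - D) + D * B.card = ∑ b ∈ B, deg b := by
      have : D * B.card = ∑ b ∈ B, D := by rw [sum_const, smul_eq_mul, mul_comm]
      rw [this, ← sum_add_distrib]
      apply sum_congr rfl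
      intro b _
      have := hdeg b b.2
      omega
    rw [c4, c5] at c3
    have c7 : A.card * D = D * A.card := mul_comm _ _
    omega
  obtain ⟨f, hf, hfT⟩ := (Finset.all_card_le_biUnion_card_iff_exists_injective T).1 hall
  -- the chosen edges
  let F : Finset ε := univ.image (fun x : X × Fin D => f (Sum.inl x))
  have hF1 : ∀ x : X × Fin D, f (Sum.inl x) ∈ E ∧ s (f (Sum.inl x)) = x.1 := fun x =>
    mem_filter.1 (hfT (Sum.inl x))
  have hF2 : ∀ x : (Σ b : Y, Fin (deg b - D)), f (Sum.inr x) ∈ E ∧ t (f (Sum.inr x)) = x.1 :=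
    fun x => mem_filter.1 (hfT (Sum.inr x))
  have hFE : F ⊆ E := by
    intro x hx
    simp only [F, mem_image, mem_univ, true_and] at hx
    obtain ⟨a, rfl⟩ := hx
    exact (hF1 a).1
  have hrow : ∀ a ∈ X, (F.filter (fun x => s x = a)).card = D := by
    intro a ha
    have : F.filter (fun x => s x = a)
        = (univ : Finset (Fin D)).image (fun j => f (Sum.inl (⟨a, ha⟩, j))) := by
      ext x
      simp only [F, mem_filter, mem_image, mem_univ, true_and]
      constructor
      · rintro ⟨⟨⟨a', j⟩, rfl⟩, h2⟩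
        have h3 := (hF1 (a', j)).2
        refine ⟨j, ?_⟩
        have : a' = ⟨a, ha⟩ := Subtype.ext (h3.symm.trans h2)
        rw [this]
      · rintro ⟨j, rfl⟩
        exact ⟨⟨_, rfl⟩, (hF1 (⟨a, ha⟩, j)).2⟩
    rw [this, card_image_of_injective, card_univ, Fintype.card_fin]
    intro j j' hj
    have := Sum.inl_injective (hf hj)
    exact (Prod.mk.inj this).2
  have hcol : ∀ b ∈ Y, (F.filter (fun x => t x = b)).card ≤ D := by
    intro b hb
    let Z : Finset ε := (univ : Finset (Fin (deg b - D))).image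
      (fun i => f (Sum.inr ⟨⟨b, hb⟩, i⟩))
    have hZ : Z.card = deg b - D := by
      rw [card_image_of_injective, card_univ, Fintype.card_fin]
      intro j j' hj
      have := Sum.inr_injective (hf hj)
      simpa using this
    have hdisj : Disjoint (F.filter (fun x => t x = b)) Z := by
      rw [disjoint_left]
      intro x hx hx'
      simp only [F, Z, mem_filter, mem_image, mem_univ, true_and] at hx hx'
      obtain ⟨⟨a, rfl⟩, -⟩ := hx
      obtain ⟨i, hi⟩ := hx'
      exact absurd (hf hi) (by simp)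
    have hle : (F.filter (fun x => t x = b)) ∪ Z ⊆ E.filter (fun x => t x = b) := by
      intro x hx
      rw [mem_union] at hx
      rcases hx with hx | hx
      · rw [mem_filter] at hx ⊢
        exact ⟨hFE hx.1, hx.2⟩
      · simp only [Z, mem_image, mem_univ, true_and] at hx
        obtain ⟨i, rfl⟩ := hx
        exact mem_filter.2 (hF2 ⟨⟨b, hb⟩, i⟩)
    have := card_le_card hle
    rw [card_union_of_disjoint hdisj, hZ] at this
    have h5 : deg b = (E.filter (fun x => t x = b)).card := rfl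
    have := hdeg b hb
    omega
  refine ⟨F, hFE, hrow, ?_⟩
  -- equality in the columns
  have t1 : ∑ b ∈ Y, (F.filter (fun x => t x = b)).card = F.card := by
    rw [← card_biUnion]
    · congr 1
      ext x
      simp only [mem_biUnion, mem_filter]
      constructor
      · rintro ⟨_, _, h, _⟩
        exact h
      · intro h
        exact ⟨t x, ht x (hFE h), h, rfl⟩
    · intro b _ b' _ hbb
      rw [Function.onFun, disjoint_left]
      intro x hx hx'
      rw [mem_filter] at hx hx'
      exact hbb (hx.2.symm.trans hx'.2)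
  have t2 : ∑ a ∈ X, (F.filter (fun x => s x = a)).card = F.card := by
    rw [← card_biUnion]
    · congr 1
      ext x
      simp only [mem_biUnion, mem_filter]
      constructor
      · rintro ⟨_, _, h, _⟩
        exact h
      · intro h
        exact ⟨s x, hs x (hFE h), h, rfl⟩
    · intro b _ b' _ hbb
      rw [Function.onFun, disjoint_left]
      intro x hx hx'
      rw [mem_filter] at hx hx'
      exact hbb (hx.2.symm.trans hx'.2)
  have t3 : ∑ a ∈ X, (F.filter (fun x => s x = a)).card = ∑ a ∈ X, D :=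
    sum_congr rfl hrow
  have t4 : ∑ b ∈ Y, (F.filter (fun x => t x = b)).card = ∑ b ∈ Y, D := by
    rw [t1, ← t2, t3, sum_const, sum_const, hXY]
  exact (sum_eq_sum_iff_of_le hcol).1 t4

lemma tg_inj_dir {n : ℕ} {v : Finset (Fin n)} {e e' : Fin n} (h : tg v e = tg v e') : e = e' := by
  have h1 : v ∆ (v ∆ {e}) = v ∆ (v ∆ {e'}) := by
    have : v ∆ {e} = v ∆ {e'} := h
    rw [this]
  rw [symmDiff_symmDiff_cancel_left, symmDiff_symmDiff_cancel_left] at h1
  exact singleton_injective h1

section main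

variable {n k : ℕ}

/-- all edges between the two levels, as pairs (lower vertex, direction) -/
def E0 (n k : ℕ) : Finset (Finset (Fin n) × Fin n) :=
  univ.filter (fun x => x.1.card = k ∧ x.2 ∉ x.1)

lemma mem_E0 {x : Finset (Fin n) × Fin n} : x ∈ E0 n k ↔ x.1.card = k ∧ x.2 ∉ x.1 := by
  simp [E0]

lemma tg_E0 {x : Finset (Fin n) × Fin n} (hx : x ∈ E0 n k) : (tg x.1 x.2).card = k + 1 :=
  card_tg_low (mem_E0.1 hx).1 (mem_E0.1 hx).2

lemma nb_E0 {x : Finset (Fin n) × Fin n} (hx : x ∈ E0 n k) : x.2 ∈ nb k x.1 := by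
  rw [nb_low (mem_E0.1 hx).1, mem_compl]
  exact (mem_E0.1 hx).2

open Classical in
lemma sum_low (w : Finset (Fin n) → Fin n → ℝ) (A : Finset (Finset (Fin n)))
    (hA : ∀ v ∈ A, v.card = k) :
    ∑ v ∈ A, ∑ e ∈ nb k v, w v e = ∑ x ∈ (E0 n k).filter (fun x => x.1 ∈ A), w x.1 x.2 := by
  rw [sum_sigma']
  refine sum_bij' (fun x _ => (x.1, x.2)) (fun x _ => ⟨x.1, x.2⟩) ?_ ?_ ?_ ?_ ?_
  · rintro ⟨v, e⟩ hx
    rw [mem_sigma] at hx
    have h1 := hx.2
    rw [nb_low (hA v hx.1), mem_compl] at h1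
    exact mem_filter.2 ⟨mem_E0.2 ⟨hA v hx.1, h1⟩, hx.1⟩
  · rintro ⟨v, e⟩ hx
    rw [mem_filter] at hx
    exact mem_sigma.2 ⟨hx.2, nb_E0 hx.1⟩
  · rintro ⟨v, e⟩ _
    rfl
  · rintro ⟨v, e⟩ _
    rfl
  · rintro ⟨v, e⟩ _
    rfl

open Classical in
lemma sum_high (w : Finset (Fin n) → Fin n → ℝ)
    (hw : ∀ v e, e ∈ nb k v → w (tg v e) e = w v e) (B : Finset (Finset (Fin n)))
    (hB : ∀ v ∈ B, v.card = k + 1) :
    ∑ v ∈ B, ∑ e ∈ nb k v, w v e
      = ∑ x ∈ (E0 n k).filter (fun x => tg x.1 x.2 ∈ B), w x.1 x.2 := by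
  rw [sum_sigma']
  refine sum_bij' (fun x _ => (tg x.1 x.2, x.2)) (fun x _ => ⟨tg x.1 x.2, x.2⟩) ?_ ?_ ?_ ?_ ?_
  · rintro ⟨v, e⟩ hx
    rw [mem_sigma] at hx
    have h1 := hx.2
    rw [nb_high (hB v hx.1)] at h1
    refine mem_filter.2 ⟨mem_E0.2 ⟨card_tg_high (hB v hx.1) h1, ?_⟩, ?_⟩
    · rw [tg_of_mem h1]
      simp
    · show tg (tg v e) e ∈ B
      rw [tg_tg]
      exact hx.1
  · rintro ⟨v, e⟩ hx
    rw [mem_filter] at hx
    exact mem_sigma.2 ⟨hx.2, mem_nb_tg (nb_E0 hx.1)⟩
  · rintro ⟨v, e⟩ _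
    simp [tg_tg]
  · rintro ⟨v, e⟩ _
    simp [tg_tg]
  · rintro ⟨v, e⟩ hx
    rw [mem_sigma] at hx
    exact (hw v e hx.2).symm

open Classical in
/-- the boundary edges are the edges leaving `A` upwards avoiding `B` and those entering `B` from
outside `A` -/
lemma bdy_card (op : Finset (Fin n) → Fin n → Prop)
    (hop : ∀ v e, e ∈ nb k v → (op (tg v e) e ↔ op v e)) (A B : Finset (Finset (Fin n)))
    (hA : ∀ v ∈ A, v.card = k) (hB : ∀ v ∈ B, v.card = k + 1) :
    ((bdy k (A ∪ B)).filter (fun x => op x.1 x.2)).card ≤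
      (((E0 n k).filter (fun x => op x.1 x.2)).filter (fun x => x.1 ∈ A ∧ tg x.1 x.2 ∉ B)).card +
      (((E0 n k).filter (fun x => op x.1 x.2)).filter (fun x => x.1 ∉ A ∧ tg x.1 x.2 ∈ B)).card := by
  have hsub : (bdy k (A ∪ B)).filter (fun x => op x.1 x.2) ⊆
      (((E0 n k).filter (fun x => op x.1 x.2)).filter (fun x => x.1 ∈ A ∧ tg x.1 x.2 ∉ B)) ∪
      (((E0 n k).filter (fun x => op x.1 x.2)).filter
        (fun x => x.1 ∉ A ∧ tg x.1 x.2 ∈ B)).image (fun x => (tg x.1 x.2, x.2)) := by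
    rintro ⟨v, e⟩ hx
    simp only [bdy, mem_filter, mem_product, mem_univ, and_true, mem_union, not_or] at hx
    obtain ⟨⟨hv, he, h1, h2⟩, h3⟩ := hx
    rw [mem_union]
    rcases hv with hv | hv
    · left
      have hc := hA v hv
      have he' := he
      rw [nb_low hc, mem_compl] at he'
      exact mem_filter.2 ⟨mem_filter.2 ⟨mem_E0.2 ⟨hc, he'⟩, h3⟩, hv, h2⟩
    · right
      have hc := hB v hv
      have he' := he
      rw [nb_high hc] at he'
      rw [mem_image]
      refine ⟨(tg v e, e), ?_, ?_⟩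
      · refine mem_filter.2 ⟨mem_filter.2 ⟨mem_E0.2 ⟨card_tg_high hc he', ?_⟩, ?_⟩, h1, ?_⟩
        · show e ∉ tg v e
          rw [tg_of_mem he']
          simp
        · exact (hop v e he).2 h3
        · show tg (tg v e) e ∈ B
          rw [tg_tg]
          exact hv
      · simp [tg_tg]
  exact (card_le_card hsub).trans ((card_union_le _ _).trans (Nat.add_le_add_left card_image_le _))

open Classical in
/-- the balance of the weights -/
lemma balance (w : Finset (Fin n) → Fin n → ℝ)
    (hw : ∀ v e, e ∈ nb k v → w (tg v e) e = w v e) (A B : Finset (Finset (Fin n)))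
    (hA : ∀ v ∈ A, v.card = k) (hB : ∀ v ∈ B, v.card = k + 1) :
    ∑ v ∈ A, ∑ e ∈ nb k v, w v e - ∑ v ∈ B, ∑ e ∈ nb k v, w v e =
      ∑ x ∈ (E0 n k).filter (fun x => x.1 ∈ A ∧ tg x.1 x.2 ∉ B), w x.1 x.2 -
      ∑ x ∈ (E0 n k).filter (fun x => x.1 ∉ A ∧ tg x.1 x.2 ∈ B), w x.1 x.2 := by
  rw [sum_low w A hA, sum_high w hw B hB]
  have s1 : ∑ x ∈ (E0 n k).filter (fun x => x.1 ∈ A), w x.1 x.2 =
      ∑ x ∈ (E0 n k).filter (fun x => x.1 ∈ A ∧ tg x.1 x.2 ∈ B), w x.1 x.2 +
      ∑ x ∈ (E0 n k).filter (fun x => x.1 ∈ A ∧ tg x.1 x.2 ∉ B), w x.1 x.2 := by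
    rw [← sum_filter_add_sum_filter_not ((E0 n k).filter (fun x => x.1 ∈ A))
      (fun x => tg x.1 x.2 ∈ B), filter_filter, filter_filter]
  have s2 : ∑ x ∈ (E0 n k).filter (fun x => tg x.1 x.2 ∈ B), w x.1 x.2 =
      ∑ x ∈ (E0 n k).filter (fun x => x.1 ∈ A ∧ tg x.1 x.2 ∈ B), w x.1 x.2 +
      ∑ x ∈ (E0 n k).filter (fun x => x.1 ∉ A ∧ tg x.1 x.2 ∈ B), w x.1 x.2 := by
    rw [← sum_filter_add_sum_filter_not ((E0 n k).filter (fun x => tg x.1 x.2 ∈ B))
      (fun x => x.1 ∈ A), filter_filter, filter_filter]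
    congr 2 <;> ext x <;> simp only [mem_filter] <;> tauto
  rw [s1, s2]
  ring

open Classical in
lemma sum_op (op : Finset (Fin n) → Fin n → Prop) (w : Finset (Fin n) → Fin n → ℝ)
    (hw0 : ∀ v e, inL k v → e ∈ nb k v → ¬ op v e → w v e = 0)
    (C : Finset (Fin n) × Fin n → Prop) [DecidablePred C] :
    ∑ x ∈ (E0 n k).filter C, w x.1 x.2 =
      ∑ x ∈ ((E0 n k).filter (fun x => op x.1 x.2)).filter C, w x.1 x.2 := by
  symm
  apply sum_subset
  · intro x hx
    rw [mem_filter] at hx ⊢
    exact ⟨(mem_filter.1 hx.1).1, hx.2⟩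
  · intro x hx hx'
    rw [mem_filter] at hx
    apply hw0 _ _ (Or.inl (mem_E0.1 hx.1).1) (nb_E0 hx.1)
    intro h
    exact hx' (mem_filter.2 ⟨mem_filter.2 ⟨hx.1, h⟩, hx.2⟩)

end main

open Classical in
theorem mid_factor {n k : ℕ} (hn : n = 2 * k + 1) (op : Finset (Fin n) → Fin n → Prop)
    (hop : ∀ v e, e ∈ nb k v → (op (tg v e) e ↔ op v e)) (w : Finset (Fin n) → Fin n → ℝ)
    (hw : ∀ v e, e ∈ nb k v → w (tg v e) e = w v e) (δ1 : ℝ) (hδ1 : 0 < δ1) (hδ1' : δ1 ≤ 1 / 2)
    (hw1 : ∀ v e, inL k v → e ∈ nb k v → op v e → 1 / 8 ≤ w v e ∧ w v e ≤ 1 - δ1 / 2)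
    (hw0 : ∀ v e, inL k v → e ∈ nb k v → ¬ op v e → w v e = 0) (D : ℕ) (η : ℝ)
    (hrow : ∀ v, inL k v → |∑ e ∈ nb k v, w v e - D| ≤ D * η) (Cx : ℕ)
    (hexp : ∀ Q : Finset (Finset (Fin n)), (∀ v ∈ Q, inL k v) → Q.card ≤ n.choose k →
      Q.card ≤ Cx * ((bdy k Q).filter (fun x => op x.1 x.2)).card)
    (hsmall : 8 * (D * η) * Cx ≤ δ1) :
    ∃ f : Finset (Fin n) → Fin n → ℝ, (∀ v e, e ∈ nb k v → f (tg v e) e = f v e) ∧
      (∀ v e, inL k v → e ∈ nb k v → f v e = 0 ∨ f v e = 1) ∧
      (∀ v e, inL k v → e ∈ nb k v → f v e ≠ 0 → op v e) ∧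
      (∀ v, inL k v → ∑ e ∈ nb k v, f v e = D) := by
  set X : Finset (Finset (Fin n)) := univ.filter (fun v => v.card = k) with hX
  set Y : Finset (Finset (Fin n)) := univ.filter (fun v => v.card = k + 1) with hY
  have mX : ∀ v, v ∈ X ↔ v.card = k := fun v => by simp [hX]
  have mY : ∀ v, v ∈ Y ↔ v.card = k + 1 := fun v => by simp [hY]
  have cX : X.card = n.choose k := by
    have : X = powersetCard k univ := by
      ext v; rw [mX, mem_powersetCard]; simp
    rw [this, card_powersetCard, card_univ, Fintype.card_fin]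
  have cY : Y.card = n.choose k := by
    have : Y = powersetCard (k + 1) univ := by
      ext v; rw [mY, mem_powersetCard]; simp
    rw [this, card_powersetCard, card_univ, Fintype.card_fin]
    apply Nat.choose_symm_of_eq_add
    omega
  have hη : 0 ≤ (D : ℝ) * η := by
    have : 0 < X.card := by
      rw [cX]; exact Nat.choose_pos (by omega)
    obtain ⟨v, hv⟩ := card_pos.1 this
    exact (abs_nonneg _).trans (hrow v (Or.inl ((mX v).1 hv)))
  set E : Finset (Finset (Fin n) × Fin n) := (E0 n k).filter (fun x => op x.1 x.2) with hE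
  have key : ∀ A ⊆ X, ∀ B ⊆ Y,
      D * A.card ≤ (E.filter (fun x => x.1 ∈ A ∧ tg x.1 x.2 ∉ B)).card + D * B.card := by
    intro A hA B hB
    have hA' : ∀ v ∈ A, v.card = k := fun v hv => (mX v).1 (hA hv)
    have hB' : ∀ v ∈ B, v.card = k + 1 := fun v hv => (mY v).1 (hB hv)
    set ea : ℕ := (E.filter (fun x => x.1 ∈ A ∧ tg x.1 x.2 ∉ B)).card with hea
    set eb : ℕ := (E.filter (fun x => x.1 ∉ A ∧ tg x.1 x.2 ∈ B)).card with heb
    have w1 : ∑ x ∈ (E0 n k).filter (fun x => x.1 ∈ A ∧ tg x.1 x.2 ∉ B), w x.1 x.2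
        ≤ ea * (1 - δ1 / 2) := by
      rw [sum_op op w hw0, hea, ← nsmul_eq_mul]
      apply sum_le_card_nsmul
      intro x hx
      have h1 := mem_filter.1 (mem_filter.1 hx).1
      exact (hw1 _ _ (Or.inl (mem_E0.1 h1.1).1) (nb_E0 h1.1) h1.2).2
    have w2 : (eb : ℝ) * (1 / 8)
        ≤ ∑ x ∈ (E0 n k).filter (fun x => x.1 ∉ A ∧ tg x.1 x.2 ∈ B), w x.1 x.2 := by
      rw [sum_op op w hw0, heb, ← nsmul_eq_mul]
      apply card_nsmul_le_sum
      intro x hx
      have h1 := mem_filter.1 (mem_filter.1 hx).1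
      exact (hw1 _ _ (Or.inl (mem_E0.1 h1.1).1) (nb_E0 h1.1) h1.2).1
    have up : ∀ S : Finset (Finset (Fin n)), (∀ v ∈ S, inL k v) →
        ∑ v ∈ S, ∑ e ∈ nb k v, w v e ≤ S.card * (D + D * η) := by
      intro S hS
      rw [← nsmul_eq_mul]
      apply sum_le_card_nsmul
      intro v hv
      have := abs_le.1 (hrow v (hS v hv))
      linarith [this.2]
    have lo : ∀ S : Finset (Finset (Fin n)), (∀ v ∈ S, inL k v) →
        (S.card : ℝ) * (D - D * η) ≤ ∑ v ∈ S, ∑ e ∈ nb k v, w v e := by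
      intro S hS
      rw [← nsmul_eq_mul]
      apply card_nsmul_le_sum
      intro v hv
      have := abs_le.1 (hrow v (hS v hv))
      linarith [this.1]
    have hAL : ∀ v ∈ A, inL k v := fun v hv => Or.inl (hA' v hv)
    have hBL : ∀ v ∈ B, inL k v := fun v hv => Or.inr (hB' v hv)
    -- it is enough to find `q`
    have fin : ∀ q : ℕ, q ≤ Cx * (ea + eb) →
        (D : ℝ) * A.card - D * B.card - D * η * q ≤
          ∑ x ∈ (E0 n k).filter (fun x => x.1 ∈ A ∧ tg x.1 x.2 ∉ B), w x.1 x.2 -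
          ∑ x ∈ (E0 n k).filter (fun x => x.1 ∉ A ∧ tg x.1 x.2 ∈ B), w x.1 x.2 →
        D * A.card ≤ ea + D * B.card := by
      intro q hq h
      have hq' : (q : ℝ) ≤ Cx * (ea + eb) := by exact_mod_cast hq
      have h1 : D * η * q ≤ δ1 / 8 * (ea + eb) := by
        have h2 : D * η * q ≤ D * η * (Cx * (ea + eb)) := mul_le_mul_of_nonneg_left hq' hη
        have h3 : D * η * (Cx * (ea + eb)) = (8 * (D * η) * Cx) * ((ea + eb) / 8) := by ring
        have h4 : (8 * (D * η) * Cx) * (((ea : ℝ) + eb) / 8) ≤ δ1 * ((ea + eb) / 8) :=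
          mul_le_mul_of_nonneg_right hsmall (by positivity)
        linarith
      have h5 : (0 : ℝ) ≤ ea := by positivity
      have h6 : (0 : ℝ) ≤ eb := by positivity
      have h7 : δ1 / 8 * (ea + eb) ≤ δ1 / 2 * ea + eb * (1 / 8) := by
        have : δ1 / 8 * eb ≤ 1 / 8 * eb := by
          apply mul_le_mul_of_nonneg_right _ h6
          linarith
        have : δ1 / 8 * ea ≤ δ1 / 2 * ea := by
          apply mul_le_mul_of_nonneg_right _ h5
          linarith
        linarith
      have h8 : (D : ℝ) * A.card ≤ ea + D * B.card := by nlinarith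
      exact_mod_cast h8
    by_cases hcase : (A ∪ B).card ≤ n.choose k
    · have hQ : ∀ v ∈ A ∪ B, inL k v := by
        intro v hv
        rcases mem_union.1 hv with hv | hv
        · exact hAL v hv
        · exact hBL v hv
      have h1 := hexp (A ∪ B) hQ hcase
      have h2 := bdy_card op hop A B hA' hB'
      have hd : Disjoint A B := by
        rw [disjoint_left]
        intro v hv hv'
        have := hA' v hv
        have := hB' v hv'
        omega
      apply fin (A ∪ B).card (h1.trans (Nat.mul_le_mul_left _ h2))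
      rw [← balance w hw A B hA' hB', card_union_of_disjoint hd]
      have h3 := lo A hAL
      have h4 := up B hBL
      push_cast
      linarith
    · have hA2 : ∀ v ∈ X \ A, v.card = k := fun v hv => (mX v).1 (mem_sdiff.1 hv).1
      have hB2 : ∀ v ∈ Y \ B, v.card = k + 1 := fun v hv => (mY v).1 (mem_sdiff.1 hv).1
      have hAL2 : ∀ v ∈ X \ A, inL k v := fun v hv => Or.inl (hA2 v hv)
      have hBL2 : ∀ v ∈ Y \ B, inL k v := fun v hv => Or.inr (hB2 v hv)
      have hQ : ∀ v ∈ (X \ A) ∪ (Y \ B), inL k v := by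
        intro v hv
        rcases mem_union.1 hv with hv | hv
        · exact hAL2 v hv
        · exact hBL2 v hv
      have hd : Disjoint (X \ A) (Y \ B) := by
        rw [disjoint_left]
        intro v hv hv'
        have := hA2 v hv
        have := hB2 v hv'
        omega
      have hd' : Disjoint A B := by
        rw [disjoint_left]
        intro v hv hv'
        have := hA' v hv
        have := hB' v hv'
        omega
      have cA : (X \ A).card + A.card = n.choose k := by
        rw [← cX]; exact card_sdiff_add_card_eq_card hA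
      have cB : (Y \ B).card + B.card = n.choose k := by
        rw [← cY]; exact card_sdiff_add_card_eq_card hB
      have hc : ((X \ A) ∪ (Y \ B)).card ≤ n.choose k := by
        rw [card_union_of_disjoint hd]
        rw [card_union_of_disjoint hd'] at hcase
        omega
      have h1 := hexp _ hQ hc
      have h2 := bdy_card op hop (X \ A) (Y \ B) hA2 hB2
      have f1 : (E.filter (fun x => x.1 ∈ X \ A ∧ tg x.1 x.2 ∉ Y \ B)) =
          E.filter (fun x => x.1 ∉ A ∧ tg x.1 x.2 ∈ B) := by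
        apply filter_congr
        intro x hx
        have hx0 := (mem_filter.1 hx).1
        have g1 : x.1 ∈ X := (mX _).2 (mem_E0.1 hx0).1
        have g2 : tg x.1 x.2 ∈ Y := (mY _).2 (tg_E0 hx0)
        simp only [mem_sdiff, g1, g2, true_and, not_not]
      have f2 : (E.filter (fun x => x.1 ∉ X \ A ∧ tg x.1 x.2 ∈ Y \ B)) =
          E.filter (fun x => x.1 ∈ A ∧ tg x.1 x.2 ∉ B) := by
        apply filter_congr
        intro x hx
        have hx0 := (mem_filter.1 hx).1
        have g1 : x.1 ∈ X := (mX _).2 (mem_E0.1 hx0).1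
        have g2 : tg x.1 x.2 ∈ Y := (mY _).2 (tg_E0 hx0)
        simp only [mem_sdiff, g1, g2, true_and, not_not]
      rw [← hE, f1, f2] at h2
      have h2' : ((bdy k ((X \ A) ∪ (Y \ B))).filter (fun x => op x.1 x.2)).card ≤ ea + eb := by
        rw [hea, heb]
        omega
      apply fin _ (h1.trans (Nat.mul_le_mul_left _ h2'))
      have hbal := balance w hw (X \ A) (Y \ B) hA2 hB2
      have f3 : (E0 n k).filter (fun x => x.1 ∈ X \ A ∧ tg x.1 x.2 ∉ Y \ B) =
          (E0 n k).filter (fun x => x.1 ∉ A ∧ tg x.1 x.2 ∈ B) := by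
        apply filter_congr
        intro x hx0
        have g1 : x.1 ∈ X := (mX _).2 (mem_E0.1 hx0).1
        have g2 : tg x.1 x.2 ∈ Y := (mY _).2 (tg_E0 hx0)
        simp only [mem_sdiff, g1, g2, true_and, not_not]
      have f4 : (E0 n k).filter (fun x => x.1 ∉ X \ A ∧ tg x.1 x.2 ∈ Y \ B) =
          (E0 n k).filter (fun x => x.1 ∈ A ∧ tg x.1 x.2 ∉ B) := by
        apply filter_congr
        intro x hx0
        have g1 : x.1 ∈ X := (mX _).2 (mem_E0.1 hx0).1
        have g2 : tg x.1 x.2 ∈ Y := (mY _).2 (tg_E0 hx0)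
        simp only [mem_sdiff, g1, g2, true_and, not_not]
      rw [f3, f4] at hbal
      have h3 := up (X \ A) hAL2
      have h4 := lo (Y \ B) hBL2
      have cA' : ((X \ A).card : ℝ) + A.card = n.choose k := by exact_mod_cast cA
      have cB' : ((Y \ B).card : ℝ) + B.card = n.choose k := by exact_mod_cast cB
      rw [card_union_of_disjoint hd]
      push_cast
      have e1 : (A.card : ℝ) = n.choose k - (X \ A).card := by linarith
      have e2 : (B.card : ℝ) = n.choose k - (Y \ B).card := by linarith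
      rw [e1, e2]
      linarith
  obtain ⟨F, hFE, hF1, hF2⟩ := ore E (fun x => x.1) (fun x => tg x.1 x.2) X Y
    (fun x hx => (mX _).2 (mem_E0.1 (mem_filter.1 hx).1).1)
    (fun x hx => (mY _).2 (tg_E0 (mem_filter.1 hx).1)) (by rw [cX, cY]) D key
  refine ⟨fun v e => if v.card = k then (if (v, e) ∈ F then 1 else 0)
    else (if (tg v e, e) ∈ F then 1 else 0), ?_, ?_, ?_, ?_⟩
  · intro v e he
    rcases nb_cases he with ⟨h1, h2⟩ | ⟨h1, h2⟩
    · have h3 : (tg v e).card ≠ k := by rw [card_tg_low h1 h2]; omega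
      simp only [h1, h3, if_true, if_false, tg_tg]
    · have h3 : (tg v e).card = k := card_tg_high h1 h2
      have h4 : v.card ≠ k := by omega
      simp only [h3, h4, if_true, if_false]
  · intro v e _ _
    dsimp only
    split_ifs <;> simp
  · intro v e _ he hne
    rcases nb_cases he with ⟨h1, h2⟩ | ⟨h1, h2⟩
    · dsimp only at hne
      rw [if_pos h1] at hne
      by_cases h3 : (v, e) ∈ F
      · exact (mem_filter.1 (hFE h3)).2
      · rw [if_neg h3] at hne
        exact absurd rfl hne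
    · have h4 : v.card ≠ k := by omega
      dsimp only at hne
      rw [if_neg h4] at hne
      by_cases h3 : (tg v e, e) ∈ F
      · exact (hop v e he).1 (mem_filter.1 (hFE h3)).2
      · rw [if_neg h3] at hne
        exact absurd rfl hne
  · intro v hv
    rcases hv with hv | hv
    · simp only [hv, if_true]
      rw [← sum_filter, sum_const, nsmul_eq_mul, mul_one]
      have h1 := hF1 v ((mX v).2 hv)
      rw [← h1]
      congr 1
      refine card_bij (fun e _ => (v, e)) ?_ ?_ ?_
      · intro e he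
        exact mem_filter.2 ⟨(mem_filter.1 he).2, rfl⟩
      · intro e _ e' _ h
        exact (Prod.mk.inj h).2
      · rintro ⟨v', e⟩ hx
        rw [mem_filter] at hx
        obtain ⟨hx1, hx2⟩ := hx
        dsimp only at hx2
        subst hx2
        exact ⟨e, mem_filter.2 ⟨nb_E0 (mem_filter.1 (hFE hx1)).1, hx1⟩, rfl⟩
    · have hv' : v.card ≠ k := by omega
      simp only [hv', if_false]
      rw [← sum_filter, sum_const, nsmul_eq_mul, mul_one]
      have h1 := hF2 v ((mY v).2 hv)
      rw [← h1]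
      congr 1
      refine card_bij (fun e _ => (tg v e, e)) ?_ ?_ ?_
      · intro e he
        refine mem_filter.2 ⟨(mem_filter.1 he).2, ?_⟩
        simp [tg_tg]
      · intro e _ e' _ h
        exact (Prod.mk.inj h).2
      · rintro ⟨v', e⟩ hx
        rw [mem_filter] at hx
        obtain ⟨hx1, hx2⟩ := hx
        dsimp only at hx2
        have h3 := nb_E0 (mem_filter.1 (hFE hx1)).1
        subst hx2
        refine ⟨e, mem_filter.2 ⟨mem_nb_tg h3, ?_⟩, ?_⟩
        · rw [tg_tg]; exact hx1
        · simp [tg_tg]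

end Pool.Agent.SK.Lin.H77
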